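import Pool.Agent.TH133.Pg

/-!
# Surfaces with `p_g = 0`: Bloch's conjecture and all Chow-Kunneth decompositions of the surface

`𝒱` is a class of smooth projective geometrically irreducible varieties over the field `k` closed
under products (for the problem: all smooth projective varieties over `k = ℂ`), `C` the Chow groups
with rational coefficients (in the form of their formal properties, `IsChowProj`), `H` the
cohomology with complex coefficients (`IsWeilProj`), `D` its Hodge structures (`HodgeData`, with
their usual properties `IsHodge`, among them the theorem of Lefschetz on `(1,1)`-classes).
`HasMurreTheory H S` records the classical facts which are used: the cohomology of `S` is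
finite-dimensional; the actions of correspondences on the Albanese and on the Picard variety (with
rational coefficients) are determined by those on `H^3(S)` and `H^1(S)`; and `S` has a Chow-Kunneth
decomposition (constructed by Murre) whose component of weight two acts as the identity on the
kernel of the Albanese map.

By theorems of Roitman, `d(S) = 0` if and only if the kernel of the Albanese map of `S` is zero, and
this group is torsion free; so `AlbaneseInjective H S` is the statement of the problem for `S`.

Theorem. For a surface `S` with `H^{2,0}(S) = 0` the following are equivalent: the kernel of the
Albanese map is zero; for all Chow-Kunneth decompositions `π` of `S` the components `π_j`, `j < i`,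
act as zero on `CH^i(S)`, all `i` (the second half of Murre's conjecture (B)); the filtration of
`CH^i(S)` attached to `π` does not depend on `π` (Murre's conjecture (C)); `F^1 CH^i(S)` consists of
the homologically trivial cycles, for all `π` (Murre's conjecture (D)); each homologically trivial
self-correspondence of degree zero of `S` acts locally nilpotently on the kernel of the Albanese map.

For the decomposition of Murre the conjectures (B) and (D) are theorems of Murre; the point is that
they contain Bloch's conjecture when they are required of all decompositions. Only `S` itself
occurs, not `S × S`. Proof: by the theorem of Lefschetz and Poincare duality there are dual bases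
`D_s`, `D'_s` of divisor classes; `A = ∑ (π_2^t D'_s) × (π_2 D_s)` is an idempotent contained in
`π_2`, and `q = π_2 - A` is a homologically trivial idempotent which acts as the identity on the
kernel of the Albanese map. Moving `q` from the weight two to the weight zero or four gives
Chow-Kunneth decompositions for which (B), (C) or (D) fail unless this kernel is zero.
-/

open CategoryTheory AlgebraicGeometry

set_option autoImplicit false

universe u v

namespace Pool.Agent.Results.MP_7ebcb6_ag.AllDecompositions

open Pool.Agent.H914 Pool.Agent.W492.BB Pool.Agent.TH133

/-- For a surface `S` with `H^{2,0}(S) = 0` the injectivity of the Albanese map of `S` on
zero-cycles of degree zero (with rational coefficients) is equivalent to each one of the following: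
the second half of Murre's conjecture (B), Murre's conjecture (C), Murre's conjecture (D), each one
for all Chow-Kunneth decompositions of `S`; the local nilpotence of the homologically trivial
self-correspondences on the kernel of the Albanese map. -/
theorem result {k : Type u} [Field k] {𝒱 : VarClass k} (C : TheoryData.{u, v, 0} 𝒱 ℚ)
    [IsChowProj C] (H : WeilTheoryData.{u, v, 0} C ℂ) [IsWeilProj H] (D : HodgeData H)
    (hD : D.IsHodge) (S : 𝒱.Obj) (hM : HasMurreTheory H S) (hS : D.IsGenusZero S) :
    List.TFAE [AlbaneseInjective H S, MurreB1 H S, MurreC H S, MurreD H S,
      HomTrivialNilpotentOnKer H S] :=
  bloch_murre_tfae hD hS hM

end Pool.Agent.Results.MP_7ebcb6_ag.AllDecompositions
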