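import Pool.Agent.TH829.Kim.Surf

/-!
# Surfaces with `p_g = 0`: Bloch's conjecture modulo prime adequate equivalence relations

`𝒱` is a class of smooth projective geometrically irreducible varieties over the field `k` closed
under products (for the problem: all smooth projective varieties over `k = ℂ`), `C` the Chow groups
with rational coefficients (in the form of their formal properties, `IsChowProj`); the rings `A(X)`
are not zero. The hypothesis `hfd` is a theorem of Guletskii and Pedrini: if the kernel of the
Albanese map of a surface with `p_g = 0` is zero then the motive of the surface is finite-dimensional
in the sense of Kimura.

By theorems of Roitman, `d(S) = 0` if and only if the kernel of the Albanese map of `S` is zero, and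
this group is torsion free; so `AlbInjective C S` is the statement of the problem for `S`.

The condition `p_g(S) = 0` enters through the projector `q` of the transcendental part `t_2(S)` of
the motive of `S` (Murre; Kahn, Murre and Pedrini): an idempotent `q ∈ CH^2(S × S)` which acts as the
identity on the kernel of the Albanese map; for `p_g = 0` it is homologically and so numerically
trivial (`IsTransProj`).

An adequate equivalence relation `P` (`IsAdequate`) is called prime (`IsPrime`) if no fundamental
class is equivalent to zero and an external product `x × y` of homogeneous classes is equivalent to
zero only if `x` or `y` is.

Theorem. For a surface `S` with such a projector `q` the following are equivalent: the kernel of the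
Albanese map of `S` is zero; modulo each prime adequate equivalence relation `P` the motive `h(S)` is
finite-dimensional in the sense of Kimura; modulo each prime adequate equivalence relation `P` some
exterior power or some symmetric power (depending on `P`) of the motive `(S, q)` vanishes; `q = 0`.
-/

open CategoryTheory AlgebraicGeometry

set_option autoImplicit false

universe u v

namespace Pool.Agent.Results.MP_7ebcb6_ag.ModuloPrimes

open Pool.Agent.H914 Pool.Agent.W492.BB Pool.Agent.TH133 Pool.Agent.TH829.Prime
  Pool.Agent.TH829.Kim

/-- For a surface `S` with a numerically trivial projector `q` which is the identity on the kernel
of the Albanese map, the injectivity of the Albanese map of `S` on zero-cycles of degree zero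
(rational coefficients) is equivalent to the finite-dimensionality of `h(S)` modulo all prime
adequate equivalence relations, and to the vanishing of some exterior or symmetric power of the
transcendental part `(S, q)` modulo each prime adequate equivalence relation. -/
theorem result {k : Type u} [Field k] {𝒱 : VarClass k} (C : TheoryData.{u, v, 0} 𝒱 ℚ)
    [IsChowProj C] (hne : ∀ X : 𝒱.Obj, (1 : C.A X) ≠ 0) (S : 𝒱.Obj) (hS : S.dim = 2)
    (q : C.A (S.prod S)) (hq : IsTransProj C S q)
    (hfd : AlbInjective C S → IsKimuraFinite C (ratFam C) S) :
    List.TFAE [AlbInjective C S,
      ∀ P : Family C, IsPrime C P → IsKimuraFinite C P S,
      ∀ P : Family C, IsPrime C P → PowerVanishes C P q,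
      q = 0] :=
  bloch_primes_tfae hne hS hfd hq

end Pool.Agent.Results.MP_7ebcb6_ag.ModuloPrimes
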