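import Pool.Agent.TH85.ZC.Main

/-!
# Surfaces with `p_g = 0`: the products with the zero-cycles of one curve

`𝒱` is a class of smooth projective geometrically irreducible varieties over the field `k` closed
under products (for the problem: all smooth projective varieties over `k = ℂ`), `C` the Chow groups
with rational coefficients (in the form of their formal properties, `IsChowProj`), `H` the
cohomology with complex coefficients (`IsWeilProj`) and `D` its Hodge structures (`HodgeData`).
`HasZeroCycleTheory D` records the classical facts which are used: the usual properties of the Hodge
structures with the theorem of Lefschetz on `(1,1)`-classes; the projector onto the transcendental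
part of the motive of a surface (`IsTranscendental`; Murre; Kahn, Murre and Pedrini); the
decomposition theorem of Bloch and Srinivas; and the injectivity of the Abel-Jacobi map on divisor
classes (`HasCycleFacts`).

By theorems of Roitman, `d(S) = 0` if and only if the kernel of the Albanese map of `S` is zero, and
this group is torsion free; so `AlbaneseInjective H S` is the statement of the problem for `S`.

Theorem. Let `S` be a surface with `H^{2,0}(S) = 0` and `B` a curve of genus `g > 0`. The kernel of
the Albanese map of `S` is zero if and only if `a × c = 0` in `CH_0(S × B)` for all `a` in this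
kernel and all zero-cycles `c` of degree zero on `B`.

Here `B` may be any fixed curve of positive genus, for example an elliptic curve with complex
multiplication.

Proof. Let `t` be the transcendental projector of `S` and `w = t^2`; it is homologically trivial by
the theorem of Lefschetz. Let `π = Δ - e × B - B × e` be the middle projector of `B` (`e` of degree
one), `n = w ⊗ π` and `G = (S × a) ⊗ π`. If the products `a × c` vanish then `n` and `G` act as zero
on the zero-cycles of `S × B`. By Bloch and Srinivas `G` is a sum of correspondences
`W_j ∘ f_j^*` with surfaces `f_j : D_j → S × B` and `W_j ∈ CH^2(D_j × (S × B))`. For the same reason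
`n` factors through divisors of the target, `n = ∑ (h_i)_* ∘ V_i`, and the class of
`V_i ∘ n ∘ n ∘ W_j` lies in `CH^1` and vanishes (two homologically trivial factors; Abel-Jacobi
map). So `0 = n ∘ n ∘ n ∘ G = G`. The intersection number of `π` with the diagonal of `B × B` is
`-2g`, and the contraction of `G = 0` over the diagonal of `B` gives `-2g (S × a) = 0`, so that
`a = 0`.
-/

open CategoryTheory AlgebraicGeometry

set_option autoImplicit false

universe u v

namespace Pool.Agent.Results.MP_7ebcb6_ag.ProductWithCurve

open Pool.Agent.H914 Pool.Agent.W492.BB Pool.Agent.TH133 Pool.Agent.TH85.ZC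

/-- Let `S` be a surface with `H^{2,0}(S) = 0` and `B` a curve of genus `g > 0`. The kernel of the
Albanese map of `S` is zero if and only if `a × c = 0` in `CH_0(S × B)` for all `a` in this kernel
and all zero-cycles `c` of degree zero on `B`. -/
theorem result {k : Type u} [Field k] {𝒱 : VarClass k} (C : TheoryData.{u, v, 0} 𝒱 ℚ)
    [IsChowProj C] (H : WeilTheoryData.{u, v, 0} C ℂ) [IsWeilProj H] (D : HodgeData H)
    (hD : HasZeroCycleTheory D) (S : 𝒱.Obj) (hS : D.IsGenusZero S) (B : 𝒱.Obj) (g : ℕ)
    (hg : 0 < g) (hB : IsCurveOfGenus C B g) :
    AlbaneseInjective H S ↔ ∀ (a : C.A S) (c : C.A B), AlbaneseKer H a → C.Deg 1 c →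
      HasDegree C c 0 → C.ext a c = 0 :=
  albaneseInjective_iff_curve hD hS hg hB

end Pool.Agent.Results.MP_7ebcb6_ag.ProductWithCurve
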