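import Pool.Agent.TH85.ZC.Main

/-!
# Surfaces with `p_g = 0`: the squares `a × a` of zero-cycles

`𝒱` is a class of smooth projective geometrically irreducible varieties over the field `k` closed
under products (for the problem: all smooth projective varieties over `k = ℂ`), `C` the Chow groups
with rational coefficients (in the form of their formal properties, `IsChowProj`), `H` the
cohomology with complex coefficients (`IsWeilProj`) and `D` its Hodge structures (`HodgeData`).
`HasZeroCycleTheory D` records the classical facts which are used: the usual properties of the Hodge
structures with the theorem of Lefschetz on `(1,1)`-classes; the projector onto the transcendental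
part of the motive of a surface (`IsTranscendental`; Murre; Kahn, Murre and Pedrini); the
decomposition theorem of Bloch and Srinivas; and the injectivity of the Abel-Jacobi map on divisor
classes (`HasCycleFacts`).

By theorems of Roitman, `d(S) = 0` if and only if the kernel of the Albanese map of `S` is zero, and
this group is torsion free; so `AlbaneseInjective H S` is the statement of the problem for `S`.

Theorem. Let `S` be a surface with `H^{2,0}(S) = 0`.
* An element `a` of the kernel of the Albanese map is zero if and only if `a × b + b × a = 0` in
  `CH_0(S × S)` for all `b` in this kernel.
* The kernel of the Albanese map is zero if and only if `a × a = 0` in `CH_0(S × S)` for all its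
  elements `a`.

Proof of the first statement (the second one follows by polarization). Let `t` be the transcendental
projector and `w = t^2`. It is homologically trivial by the theorem of Lefschetz, and it acts as the
identity on the kernel of the Albanese map. Let `G = (a × S) ⊗ w` and let `σ` be the exchange of the
factors of `S × S`. The transpose of `Γ = G + G ∘ σ` acts as zero on the zero-cycles of `S × S`. By
Bloch and Srinivas `Γ` factors through divisors of the target, and by the injectivity of the
Abel-Jacobi map on divisor classes `Γ_* (t ⊗ t)_* w = 0`. As `w` is symmetric, this is
`2 (S × a)`.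
-/

open CategoryTheory AlgebraicGeometry

set_option autoImplicit false

universe u v

namespace Pool.Agent.Results.MP_7ebcb6_ag.Squares

open Pool.Agent.H914 Pool.Agent.W492.BB Pool.Agent.TH133 Pool.Agent.TH85.ZC

/-- Let `S` be a surface with `H^{2,0}(S) = 0`. An element `a` of the kernel of the Albanese map is
zero if and only if `a × b + b × a = 0` in `CH_0(S × S)` for all `b` in this kernel. The kernel is
zero if and only if `a × a = 0` in `CH_0(S × S)` for all its elements `a`. -/
theorem result {k : Type u} [Field k] {𝒱 : VarClass k} (C : TheoryData.{u, v, 0} 𝒱 ℚ)
    [IsChowProj C] (H : WeilTheoryData.{u, v, 0} C ℂ) [IsWeilProj H] (D : HodgeData H)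
    (hD : HasZeroCycleTheory D) (S : 𝒱.Obj) (hS : D.IsGenusZero S) :
    (∀ a : C.A S, AlbaneseKer H a →
      (a = 0 ↔ ∀ b : C.A S, AlbaneseKer H b → C.ext a b + C.ext b a = 0)) ∧
    (AlbaneseInjective H S ↔ ∀ a : C.A S, AlbaneseKer H a → C.ext a a = 0) := by
  refine ⟨fun a ha => ⟨?_, eq_zero_of_symm hD hS ha⟩, albaneseInjective_iff_squares hD hS⟩
  rintro rfl b _
  rw [TheoryData.ext_zero_left, TheoryData.ext_zero_right, add_zero]

end Pool.Agent.Results.MP_7ebcb6_ag.Squares
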